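import Pool.Agent.Helper64.PQ.Goals

set_option autoImplicit false

open Topology Filter Set Metric
open Pool.Agent.Helper64.PQ

namespace Pool.Agent.Helper4.PQ

universe v

section
variable {X : Type v} [TopologicalSpace X]

open Classical in
/-- The extension by the identity of a planar map transported by `J`. -/
noncomputable def ext (J : OpenPartialHomeomorph ℂ X) (φ : ℂ → ℂ) (x : X) : X :=
  if x ∈ J.target then J (φ (J.symm x)) else x

theorem ext_J {J : OpenPartialHomeomorph ℂ X} (hJ : J.source = ball 0 2) (φ : ℂ → ℂ) {z : ℂ}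
    (hz : z ∈ ball (0 : ℂ) 2) : ext J φ (J z) = J (φ z) := by
  have hz' : z ∈ J.source := by rw [hJ]; exact hz
  unfold ext
  rw [if_pos (J.map_source hz'), J.left_inv hz']

theorem ext_out {J : OpenPartialHomeomorph ℂ X} (φ : ℂ → ℂ)
    (h1 : ∀ z, 7 / 10 ≤ ‖z‖ → φ z = z) {x : X} (hx : x ∉ J '' closedBall 0 1) :
    ext J φ x = x := by
  unfold ext
  split_ifs with h
  · have hz : 7 / 10 ≤ ‖J.symm x‖ := by
      by_contra hc
      push Not at hc
      apply hx
      refine ⟨J.symm x, ?_, J.right_inv h⟩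
      rw [mem_closedBall_zero_iff]
      linarith
    rw [h1 _ hz, J.right_inv h]
  · rfl

theorem norm_lt {φ : ℂ → ℂ} (h1 : ∀ z, 7 / 10 ≤ ‖z‖ → φ z = z)
    (h2 : ∀ z, ‖z‖ < 7 / 10 → ‖φ z‖ < 7 / 10) {z : ℂ} (hz : z ∈ ball (0 : ℂ) 2) :
    φ z ∈ ball (0 : ℂ) 2 := by
  rcases le_or_gt (7 / 10) ‖z‖ with h | h
  · rw [h1 z h]; exact hz
  · have := h2 z h
    rw [mem_ball_zero_iff]
    linarith

theorem ext_comp {J : OpenPartialHomeomorph ℂ X} (hJ : J.source = ball 0 2) (φ ψ : ℂ → ℂ)
    (h1 : ∀ z, 7 / 10 ≤ ‖z‖ → φ z = z) (h2 : ∀ z, ‖z‖ < 7 / 10 → ‖φ z‖ < 7 / 10)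
    (h : ∀ z, ψ (φ z) = z) (x : X) : ext J ψ (ext J φ x) = x := by
  by_cases hx : x ∈ J.target
  · have hz : J.symm x ∈ ball (0 : ℂ) 2 := by rw [← hJ]; exact J.map_target hx
    have e : x = J (J.symm x) := (J.right_inv hx).symm
    rw [e, ext_J hJ φ hz, ext_J hJ ψ (norm_lt h1 h2 hz), h]
  · have e : ext J φ x = x := by
      unfold ext; rw [if_neg hx]
    rw [e]
    unfold ext; rw [if_neg hx]

theorem ext_cont [T2Space X] {J : OpenPartialHomeomorph ℂ X} (hJ : J.source = ball 0 2)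
    {Y : Type*} [TopologicalSpace Y] {Φ : Y × ℂ → ℂ} (hc : Continuous Φ)
    (h1 : ∀ t z, 7 / 10 ≤ ‖z‖ → Φ (t, z) = z) (h2 : ∀ t z, ‖z‖ < 7 / 10 → ‖Φ (t, z)‖ < 7 / 10) :
    Continuous (fun p : Y × X => ext J (fun z => Φ (p.1, z)) p.2) := by
  have hcl : IsClosed (J '' closedBall (0 : ℂ) 1) := by
    apply IsCompact.isClosed
    apply (isCompact_closedBall (0 : ℂ) 1).image_of_continuousOn
    apply J.continuousOn.mono
    rw [hJ]
    intro z hz
    rw [mem_closedBall_zero_iff] at hz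
    rw [mem_ball_zero_iff]
    linarith
  rw [continuous_iff_continuousAt]
  rintro ⟨t, x⟩
  by_cases hx : x ∈ J.target
  · have hopen : (univ ×ˢ J.target : Set (Y × X)) ∈ 𝓝 (t, x) :=
      prod_mem_nhds univ_mem (J.open_target.mem_nhds hx)
    have hco : ContinuousOn (fun p : Y × X => J (Φ (p.1, J.symm p.2)))
        (univ ×ˢ J.target : Set (Y × X)) := by
      have hs : ContinuousOn (fun p : Y × X => J.symm p.2) (univ ×ˢ J.target : Set (Y × X)) :=
        J.continuousOn_symm.comp continuous_snd.continuousOn (fun p hp => hp.2)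
      have hΦ : ContinuousOn (fun p : Y × X => Φ (p.1, J.symm p.2))
          (univ ×ˢ J.target : Set (Y × X)) :=
        hc.comp_continuousOn (continuous_fst.continuousOn.prodMk hs)
      refine J.continuousOn.comp hΦ ?_
      rintro ⟨s, y⟩ hy
      have hy' : J.symm y ∈ ball (0 : ℂ) 2 := by rw [← hJ]; exact J.map_target hy.2
      rw [hJ]
      exact norm_lt (φ := fun z => Φ (s, z)) (h1 s) (h2 s) hy'
    refine (hco.continuousAt hopen).congr ?_
    filter_upwards [hopen] with p hp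
    unfold ext
    rw [if_pos hp.2]
  · have hx' : x ∉ J '' closedBall (0 : ℂ) 1 := by
      rintro ⟨z, hz, rfl⟩
      apply hx
      apply J.map_source
      rw [hJ, mem_ball_zero_iff]
      rw [mem_closedBall_zero_iff] at hz
      linarith
    have hopen : (univ ×ˢ (J '' closedBall (0 : ℂ) 1)ᶜ : Set (Y × X)) ∈ 𝓝 (t, x) :=
      prod_mem_nhds univ_mem (hcl.isOpen_compl.mem_nhds hx')
    refine (continuous_snd.continuousAt (x := (t, x))).congr ?_
    filter_upwards [hopen] with p hp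
    exact (ext_out (fun z => Φ (p.1, z)) (h1 p.1) hp.2).symm

end

theorem homeo_ball {T : ℂ ≃ₜ ℂ} (h1 : ∀ z, 7 / 10 ≤ ‖z‖ → T z = z) {z : ℂ} (hz : ‖z‖ < 7 / 10) :
    ‖T z‖ < 7 / 10 := by
  by_contra hc
  push Not at hc
  have e := T.injective (h1 (T z) hc)
  rw [e] at hc
  linarith

theorem homeo_symm {T : ℂ ≃ₜ ℂ} (h1 : ∀ z, 7 / 10 ≤ ‖z‖ → T z = z) (z : ℂ) (hz : 7 / 10 ≤ ‖z‖) :
    T.symm z = z := by
  rw [Homeomorph.symm_apply_eq, h1 z hz]

theorem goalE4 : GoalE4.{v} := by
  intro X _ _ J hJ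
  refine ⟨?_, ?_⟩
  · intro T h1
    have h1' := homeo_symm h1
    have c1 : Continuous (fun x : X => ext J T x) := by
      have h := ext_cont (J := J) hJ (Y := Unit) (Φ := fun p => T p.2)
        (T.continuous.comp continuous_snd) (fun _ z hz => h1 z hz)
        (fun _ z hz => homeo_ball h1 hz)
      exact h.comp (g := fun p : Unit × X => _) (f := fun x : X => ((), x)) (Continuous.prodMk continuous_const continuous_id)
    have c2 : Continuous (fun x : X => ext J T.symm x) := by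
      have h := ext_cont (J := J) hJ (Y := Unit) (Φ := fun p => T.symm p.2)
        (T.symm.continuous.comp continuous_snd) (fun _ z hz => h1' z hz)
        (fun _ z hz => homeo_ball h1' hz)
      exact h.comp (g := fun p : Unit × X => _) (f := fun x : X => ((), x)) (Continuous.prodMk continuous_const continuous_id)
    refine ⟨⟨⟨fun x => ext J T x, fun x => ext J T.symm x, ?_, ?_⟩, c1, c2⟩, ?_, ?_⟩
    · intro x
      exact ext_comp hJ T T.symm h1 (fun z hz => homeo_ball h1 hz) (fun z => T.symm_apply_apply z) x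
    · intro x
      exact ext_comp hJ T.symm T h1' (fun z hz => homeo_ball h1' hz)
        (fun z => T.apply_symm_apply z) x
    · intro z hz
      exact ext_J hJ T hz
    · intro x hx
      exact ext_out T h1 hx
  · intro Φ h1 h2
    refine ⟨⟨fun p => ext J (fun z => Φ (p.1, z)) p.2, ext_cont hJ Φ.continuous h1 h2⟩, ?_, ?_⟩
    · intro t z hz
      exact ext_J hJ (fun z => Φ (t, z)) hz
    · intro t x hx
      exact ext_out (fun z => Φ (t, z)) (h1 t) hx

end Pool.Agent.Helper4.PQ
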